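import Pool.Agent.Q65.ISO.TRN

/-!
Project ISO (helper63), job WIE: localisation in the Wiener algebra.
-/

set_option autoImplicit false

namespace Pool.Agent.Q65.ISO.WIE

open MeasureTheory Set Filter Metric Pool.Agent.Q63.ISO
open scoped FourierTransform ContDiff Topology ENNReal Convolution SchwartzMap

/-- scaling by `δ⁻¹` -/
noncomputable def sc (δ : ℝ) (hδ : δ ≠ 0) : P ≃L[ℝ] P :=
  ContinuousLinearEquiv.smulLeft (Units.mk0 δ⁻¹ (inv_ne_zero hδ))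

theorem sc_apply (δ : ℝ) (hδ : δ ≠ 0) (x : P) : sc δ hδ x = δ⁻¹ • x := rfl

/-- the scaled Schwartz function -/
noncomputable def dil (δ : ℝ) (hδ : δ ≠ 0) (X : 𝓢(P, ℂ)) : 𝓢(P, ℂ) :=
  SchwartzMap.compCLMOfContinuousLinearEquiv ℝ (sc δ hδ) X

theorem dil_apply (δ : ℝ) (hδ : δ ≠ 0) (X : 𝓢(P, ℂ)) (x : P) : dil δ hδ X x = X (δ⁻¹ • x) := rfl

theorem inv_dil (δ : ℝ) (hδ : 0 < δ) (X : 𝓢(P, ℂ)) (ξ : P) :
    𝓕⁻ (dil δ hδ.ne' X) ξ = ((δ ^ 2 : ℝ) : ℂ) * 𝓕⁻ X (δ • ξ) := by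
  rw [SchwartzMap.fourierInv_coe, SchwartzMap.fourierInv_coe, Real.fourierInv_eq', Real.fourierInv_eq']
  have h1 : (fun v : P => Complex.exp (((2 * Real.pi * inner ℝ v ξ : ℝ) : ℂ) * Complex.I) • dil δ hδ.ne' X v) =
      fun v : P => (fun u : P => Complex.exp (((2 * Real.pi * inner ℝ u (δ • ξ) : ℝ) : ℂ) * Complex.I) • X u) (δ⁻¹ • v) := by
    funext v
    simp only [dil_apply]
    rw [real_inner_smul_left, real_inner_smul_right, ← mul_assoc δ⁻¹, inv_mul_cancel₀ hδ.ne', one_mul]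
  have h2 := Measure.integral_comp_inv_smul_of_nonneg (volume : Measure P)
    (fun u : P => Complex.exp (((2 * Real.pi * inner ℝ u (δ • ξ) : ℝ) : ℂ) * Complex.I) • X u) hδ.le
  rw [h1]
  refine h2.trans ?_
  rw [Complex.real_smul]
  congr 3
  simp

theorem mod_dil {C : ℝ} {X : 𝓢(P, ℂ)} (hC : 0 ≤ C)
    (hX : ∀ h : P, Integrable (fun ξ => X (ξ - h) - X ξ) ∧ ∫ ξ, ‖X (ξ - h) - X ξ‖ ≤ C * ‖h‖)
    {δ : ℝ} (hδ : 0 < δ) (η : P) :
    ∫⁻ ξ, ‖((δ ^ 2 : ℝ) : ℂ) * X (δ • (ξ - η)) - ((δ ^ 2 : ℝ) : ℂ) * X (δ • ξ)‖ₑ ≤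
      ENNReal.ofReal (C * δ) * ‖η‖ₑ := by
  obtain ⟨hi, hb⟩ := hX (δ • η)
  have hi2 : Integrable (fun ξ => ((δ ^ 2 : ℝ) : ℂ) * X (δ • (ξ - η)) - ((δ ^ 2 : ℝ) : ℂ) * X (δ • ξ)) := by
    have h1 := (hi.comp_smul hδ.ne').const_mul ((δ ^ 2 : ℝ) : ℂ)
    refine h1.congr (Eventually.of_forall fun ξ => ?_)
    simp only [smul_sub, mul_sub]
  have h2 : ∫ ξ, ‖((δ ^ 2 : ℝ) : ℂ) * X (δ • (ξ - η)) - ((δ ^ 2 : ℝ) : ℂ) * X (δ • ξ)‖ ≤ C * δ * ‖η‖ := by
    have h3 : (fun ξ : P => ‖((δ ^ 2 : ℝ) : ℂ) * X (δ • (ξ - η)) - ((δ ^ 2 : ℝ) : ℂ) * X (δ • ξ)‖) =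
        fun ξ : P => δ ^ 2 * (fun u : P => ‖X (u - δ • η) - X u‖) (δ • ξ) := by
      funext ξ
      rw [← mul_sub, norm_mul, smul_sub]
      congr 1
      rw [Complex.norm_real, Real.norm_of_nonneg (by positivity)]
    have h6 := Measure.integral_comp_smul_of_nonneg (volume : Measure P)
      (fun u : P => ‖X (u - δ • η) - X u‖) δ (hR := hδ.le)
    rw [h3, integral_const_mul]
    have h7 : ∫ a : P, (fun u : P => ‖X (u - δ • η) - X u‖) (δ • a) =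
      (δ ^ Module.finrank ℝ P)⁻¹ • ∫ x : P, ‖X (x - δ • η) - X x‖ := h6
    rw [h7, smul_eq_mul, ← mul_assoc]
    have h4 : δ ^ 2 * (δ ^ Module.finrank ℝ P)⁻¹ = 1 := by
      have : Module.finrank ℝ P = 2 := by simp
      rw [this]
      exact mul_inv_cancel₀ (by positivity)
    rw [h4, one_mul]
    refine hb.trans (le_of_eq ?_)
    rw [norm_smul, Real.norm_of_nonneg hδ.le]
    ring
  rw [integral_norm_eq_lintegral_enorm hi2.aestronglyMeasurable] at h2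
  have h5 : ENNReal.ofReal (C * δ) * ‖η‖ₑ = ENNReal.ofReal (C * δ * ‖η‖) := by
    rw [ENNReal.ofReal_mul (show 0 ≤ C * δ by positivity), ofReal_norm]
  rw [h5]
  exact (ENNReal.le_ofReal_iff_toReal_le hi2.2.ne (by positivity)).2 h2

theorem proof_wie (hT : S_TRN) : S_WIE := by
  intro f hf hs h0 ε hε
  have hfc : ContDiff ℝ ∞ (fun x => (f x : ℂ)) := Complex.ofRealCLM.contDiff.comp hf
  have hsc : HasCompactSupport (fun x => (f x : ℂ)) := hs.comp_left (g := fun r : ℝ => (r : ℂ)) (by simp)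
  obtain ⟨F, hF⟩ : ∃ F : 𝓢(P, ℂ), ∀ x, F x = (f x : ℂ) := ⟨hsc.toSchwartzMap hfc, fun x => rfl⟩
  obtain ⟨b⟩ : Nonempty { b : ContDiffBump (0 : P) // b.rIn = 1 ∧ b.rOut = 2 } :=
    ⟨⟨⟨1, 2, one_pos, one_lt_two⟩, rfl, rfl⟩⟩
  obtain ⟨b, hb1, hb2⟩ := b
  have hbc : ContDiff ℝ ∞ (fun x => ((b x : ℝ) : ℂ)) := Complex.ofRealCLM.contDiff.comp b.contDiff
  have hbs : HasCompactSupport (fun x => ((b x : ℝ) : ℂ)) :=
    b.hasCompactSupport.comp_left (g := fun r : ℝ => (r : ℂ)) (by simp)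
  obtain ⟨Chi, hChi⟩ : ∃ F : 𝓢(P, ℂ), ∀ x, F x = ((b x : ℝ) : ℂ) := ⟨hbs.toSchwartzMap hbc, fun x => rfl⟩
  obtain ⟨H, hH⟩ : ∃ H : 𝓢(P, ℂ), H = 𝓕⁻ F := ⟨_, rfl⟩
  obtain ⟨X, hX⟩ : ∃ X : 𝓢(P, ℂ), X = 𝓕⁻ Chi := ⟨_, rfl⟩
  obtain ⟨C, hC, hCX⟩ := hT X
  have hHF : 𝓕 H = F := by rw [hH]; simp
  have hH0 : ∫ η, H η = 0 := by
    have h1 : 𝓕 H 0 = ∫ η, H η := by
      rw [SchwartzMap.fourier_coe, Real.fourier_eq']
      simp
    rw [← h1, hHF, hF, h0]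
    simp
  obtain ⟨M, hM⟩ : ∃ M, M = ∫ η, ‖η‖ ^ 1 * ‖H η‖ := ⟨_, rfl⟩
  have hM0 : 0 ≤ M := by rw [hM]; exact integral_nonneg fun _ => by positivity
  refine ⟨ε / (C * M + 1), by positivity, fun δ hδ hδ0 => ?_⟩
  obtain ⟨Xd, hXd⟩ : ∃ Xd : 𝓢(P, ℂ), Xd = 𝓕⁻ (dil δ hδ.ne' Chi) := ⟨_, rfl⟩
  have hXdF : 𝓕 Xd = dil δ hδ.ne' Chi := by rw [hXd]; simp
  have hXdX : ∀ ξ, Xd ξ = ((δ ^ 2 : ℝ) : ℂ) * X (δ • ξ) := by
    intro ξ
    rw [hXd, inv_dil δ hδ, hX]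
  obtain ⟨K, hK⟩ : ∃ K : 𝓢(P, ℂ), K = SchwartzMap.convolution (ContinuousLinearMap.mul ℂ ℂ) H Xd := ⟨_, rfl⟩
  refine ⟨K, ⟨K.continuous.aestronglyMeasurable, fun n => K.integrable_pow_mul volume n⟩, ?_, ?_⟩
  · -- the norm
    have hKv : ∀ ξ, K ξ = ∫ η, H η * (Xd (ξ - η) - Xd ξ) := by
      intro ξ
      rw [hK, SchwartzMap.convolution_apply]
      have h1 : (H ⋆[ContinuousLinearMap.mul ℂ ℂ] Xd) ξ = ∫ η, H η * Xd (ξ - η) := rfl
      rw [h1]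
      have hb : ∃ B : ℝ, ∀ x, ‖Xd x‖ ≤ B :=
        ⟨SchwartzMap.seminorm ℝ 0 0 Xd, fun x => SchwartzMap.norm_le_seminorm ℝ Xd x⟩
      obtain ⟨B, hB⟩ := hb
      have i1 : Integrable fun η => H η * Xd (ξ - η) := by
        refine H.integrable.mul_bdd (c := B) ?_ (Eventually.of_forall fun η => hB _)
        exact (Xd.continuous.comp (by fun_prop)).aestronglyMeasurable
      have i2 : Integrable fun η => H η * Xd ξ := H.integrable.mul_const _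
      simp only [mul_sub]
      rw [integral_sub i1 i2, integral_mul_const, hH0, zero_mul, sub_zero]
    have hle : ∫⁻ ξ, ‖K ξ‖ₑ ≤ ENNReal.ofReal (C * δ) * ∫⁻ η, ‖η‖ₑ * ‖H η‖ₑ := by
      calc ∫⁻ ξ, ‖K ξ‖ₑ ≤ ∫⁻ ξ, ∫⁻ η, ‖H η‖ₑ * ‖Xd (ξ - η) - Xd ξ‖ₑ := by
            refine lintegral_mono fun ξ => ?_
            rw [hKv ξ]
            refine (enorm_integral_le_lintegral_enorm _).trans (le_of_eq ?_)
            exact lintegral_congr fun η => enorm_mul _ _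
        _ = ∫⁻ η, ∫⁻ ξ, ‖H η‖ₑ * ‖Xd (ξ - η) - Xd ξ‖ₑ := by
            refine lintegral_lintegral_swap ?_
            have c1 : Continuous fun p : P × P => H p.2 * (Xd (p.1 - p.2) - Xd p.1) := by
              have a1 := H.continuous
              have a2 := Xd.continuous
              exact (a1.comp continuous_snd).mul
                ((a2.comp (continuous_fst.sub continuous_snd)).sub (a2.comp continuous_fst))
            have c2 : (Function.uncurry fun ξ η : P => ‖H η‖ₑ * ‖Xd (ξ - η) - Xd ξ‖ₑ) =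
                fun p : P × P => ‖H p.2 * (Xd (p.1 - p.2) - Xd p.1)‖ₑ := by
              funext p
              exact (enorm_mul _ _).symm
            rw [c2]
            exact c1.enorm.measurable.aemeasurable
        _ ≤ ∫⁻ η, ‖H η‖ₑ * (ENNReal.ofReal (C * δ) * ‖η‖ₑ) := by
            refine lintegral_mono fun η => ?_
            rw [lintegral_const_mul' _ _ (by simp)]
            refine mul_le_mul' le_rfl ?_
            simp only [hXdX]
            exact mod_dil hC hCX hδ η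
        _ = ENNReal.ofReal (C * δ) * ∫⁻ η, ‖η‖ₑ * ‖H η‖ₑ := by
            rw [← lintegral_const_mul' _ _ (by simp)]
            exact lintegral_congr fun η => by ring
    have hMi := H.integrable_pow_mul volume 1
    have hMe : ∫⁻ η, ‖η‖ₑ * ‖H η‖ₑ = ENNReal.ofReal M := by
      rw [hM, ofReal_integral_eq_lintegral_ofReal hMi (Eventually.of_forall fun η => by positivity)]
      refine lintegral_congr fun η => ?_
      rw [ENNReal.ofReal_mul (by positivity), pow_one, ofReal_norm, ofReal_norm]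
    rw [hMe, ← ENNReal.ofReal_mul (by positivity)] at hle
    rw [integral_norm_eq_lintegral_enorm K.integrable.aestronglyMeasurable]
    have h6 := ENNReal.toReal_le_of_le_ofReal (by positivity) hle
    refine h6.trans ?_
    have h7 : δ * (C * M + 1) ≤ ε := by rwa [le_div_iff₀ (by positivity)] at hδ0
    nlinarith
  · intro x hx
    have h1 : 𝓕 K = SchwartzMap.pairing (ContinuousLinearMap.mul ℂ ℂ) F (dil δ hδ.ne' Chi) := by
      rw [hK, SchwartzMap.fourier_convolution, hHF, hXdF]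
    have h2 : 𝓕 (K : P → ℂ) x = 𝓕 K x := by rw [SchwartzMap.fourier_coe]
    rw [h2, h1, SchwartzMap.pairing_apply_apply, dil_apply, hChi, hF]
    have h3 : b (δ⁻¹ • x) = 1 := by
      refine b.one_of_mem_closedBall ?_
      rw [mem_closedBall, dist_zero_right, norm_smul, norm_inv, Real.norm_of_nonneg hδ.le, hb1,
        inv_mul_le_iff₀ hδ, mul_one]
      exact hx
    rw [h3]
    simp

end Pool.Agent.Q65.ISO.WIE
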