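import Pool.Agent.Q63.ISO.Stm

/-!
Project ISO (helper63), job TRN: the L1 modulus of continuity of a Schwartz function on the plane.
-/

set_option autoImplicit false

namespace Pool.Agent.Q65.ISO.TRN

open MeasureTheory Set Filter Metric Pool.Agent.Q63.ISO
open scoped FourierTransform ContDiff Topology ENNReal

theorem ptw (X : SchwartzMap P ℂ) (h ξ : P) :
    ‖X (ξ - h) - X ξ‖ₑ ≤ ∫⁻ s in Ioc (0 : ℝ) 1, ‖fderiv ℝ X (ξ - s • h)‖ₑ * ‖h‖ₑ := by
  have hd : ∀ s : ℝ, HasDerivAt (fun s : ℝ => X (ξ - s • h)) (fderiv ℝ X (ξ - s • h) (-h)) s := by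
    intro s
    have h1 : HasFDerivAt X (fderiv ℝ X (ξ - s • h)) (ξ - s • h) :=
      (X.differentiable _).hasFDerivAt
    have h2 : HasDerivAt (fun s : ℝ => ξ - s • h) (-h) s := by
      have := (hasDerivAt_id s).smul_const h
      simpa using this.const_sub ξ
    exact h1.comp_hasDerivAt s h2
  have hc : Continuous fun s : ℝ => fderiv ℝ X (ξ - s • h) (-h) := by
    have h1 : Continuous (fderiv ℝ X) := (X.smooth 1).continuous_fderiv (by simp)
    exact (h1.comp (by fun_prop)).clm_apply continuous_const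
  have h3 := intervalIntegral.integral_eq_sub_of_hasDerivAt (a := 0) (b := 1) (fun s _ => hd s)
    (hc.intervalIntegrable 0 1)
  rw [one_smul, zero_smul, sub_zero, intervalIntegral.integral_of_le zero_le_one] at h3
  rw [← h3]
  refine (enorm_integral_le_lintegral_enorm _).trans ?_
  refine lintegral_mono fun s => ?_
  refine (ContinuousLinearMap.le_opENorm _ _).trans ?_
  rw [enorm_neg]

theorem proof_trn : S_TRN := by
  intro X
  obtain ⟨D, hD⟩ : ∃ D : SchwartzMap P (P →L[ℝ] ℂ), D = SchwartzMap.fderivCLM ℝ P ℂ X := ⟨_, rfl⟩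
  have hDX : ∀ x, D x = fderiv ℝ X x := fun x => by rw [hD]; rfl
  refine ⟨∫ ξ, ‖D ξ‖, integral_nonneg fun _ => norm_nonneg _, fun h => ?_⟩
  have hi : Integrable (fun ξ => X (ξ - h) - X ξ) := (X.integrable.comp_sub_right h).sub X.integrable
  refine ⟨hi, ?_⟩
  have hDc : Continuous fun p : P × ℝ => ‖fderiv ℝ X (p.1 - p.2 • h)‖ₑ * ‖h‖ₑ := by
    have h1 : Continuous (fderiv ℝ X) := (X.smooth 1).continuous_fderiv (by simp)
    have h2 : Continuous fun p : P × ℝ => ‖fderiv ℝ X (p.1 - p.2 • h)‖ₑ :=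
      (h1.comp (by fun_prop)).enorm
    exact ENNReal.continuous_mul_const (by simp) |>.comp h2
  have key : ∫⁻ ξ, ‖X (ξ - h) - X ξ‖ₑ ≤ (∫⁻ ξ, ‖D ξ‖ₑ) * ‖h‖ₑ := by
    calc ∫⁻ ξ, ‖X (ξ - h) - X ξ‖ₑ ≤ ∫⁻ ξ, ∫⁻ s in Ioc (0 : ℝ) 1, ‖fderiv ℝ X (ξ - s • h)‖ₑ * ‖h‖ₑ :=
          lintegral_mono fun ξ => ptw X h ξ
      _ = ∫⁻ s in Ioc (0 : ℝ) 1, ∫⁻ ξ, ‖fderiv ℝ X (ξ - s • h)‖ₑ * ‖h‖ₑ := by
          refine lintegral_lintegral_swap ?_
          exact hDc.measurable.aemeasurable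
      _ = ∫⁻ _s in Ioc (0 : ℝ) 1, (∫⁻ ξ, ‖D ξ‖ₑ) * ‖h‖ₑ := by
          refine lintegral_congr fun s => ?_
          rw [lintegral_mul_const' _ _ (by simp)]
          congr 1
          rw [lintegral_sub_right_eq_self (fun ξ => ‖fderiv ℝ X ξ‖ₑ) (s • h)]
          exact lintegral_congr fun ξ => by rw [hDX]
      _ = (∫⁻ ξ, ‖D ξ‖ₑ) * ‖h‖ₑ := by
          rw [lintegral_const]
          simp
  rw [integral_norm_eq_lintegral_enorm hi.aestronglyMeasurable,
    integral_norm_eq_lintegral_enorm D.integrable.aestronglyMeasurable]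
  have hfin : ∫⁻ ξ, ‖D ξ‖ₑ ≠ ⊤ := D.integrable.2.ne
  have h5 := ENNReal.toReal_mono (ENNReal.mul_ne_top hfin (by simp)) key
  rw [ENNReal.toReal_mul] at h5
  simpa using h5

end Pool.Agent.Q65.ISO.TRN
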